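import Pool.Agent.L5helper32.GP.D.Defs
import Pool.Agent.L5helper8.GPD
import Pool.Agent.L5helper83.GPD
import Pool.Agent.L5helper12.GPD4
import Pool.Agent.L5helper67.GPD5
import Pool.Agent.L5helper46.GPD
import Pool.Agent.L5helper78.GPD2
import Pool.Agent.L5helper37.GPD7b
import Pool.Agent.L5helper41.GPD10
import Pool.Agent.L5helper32.GP.D.Orb
import Pool.Agent.L5helper41.GPD8
import Pool.Agent.L5helper12.GPD9

set_option autoImplicit false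

open Finset MeasureTheory ProbabilityTheory Filter Topology

namespace Pool.Agent.L5helper32.GP

open Pool.Agent.L5helper32.GR (Root w pr sg Dep lev q)

/-- D4: from D1, D2, D3. -/
theorem prob_q {p : ℕ} (hp : p.Prime) (h5 : 5 ≤ p) {ε : ℝ} (hε : 0 < ε) :
    ∃ z₁ : ℕ, ∀ z ≥ z₁, ∀ {Ω : Type} [MeasurableSpace Ω] (μ : Measure Ω) [IsProbabilityMeasure μ]
      (T : ℕ × ℕ × ℕ → Ω → ℕ), Res μ T → ∀ n : ℕ, lev p z ≤ 4 * n → n ≤ lev p z →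
      |μ.real {ω | ∀ r, r.Prime → lev p z + 2 < r → r ^ 2 ≤ q p n → ¬ r ∣ q p (res T ω n r 0)}
        - 2 / ((p : ℝ) - 1)| ≤ ε :=
  Pool.Agent.L5helper12.GPD4.prob_q_of (fun hp h3 _ hε => prod_ap hp h3 hε)
    (fun hp h3 _ _ _ _ _ h n _ ha => prob_noq hp h3 h n ha) (fun hp h5 _ hε => log_ratio hp h5 hε) hp h5 hε

variable {Ω : Type} [MeasurableSpace Ω] {μ : Measure Ω} [IsProbabilityMeasure μ]
  {T : ℕ × ℕ × ℕ → Ω → ℕ}

/-- D5: one descent, from `prob_q` (take it as a stub). -/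
theorem step_prime {p : ℕ} (hp : p.Prime) (h5 : 5 ≤ p) (h : Res μ T) {ε : ℝ} (hε : 0 < ε) :
    ∃ z₂ : ℕ, ∀ z ≥ z₂, ∀ (n R : ℕ) (A : Set (ℕ × ℕ × ℕ → ℕ)),
      Dep (bx (range ((lev p z + 3) / 4)) R) A →
      Pr μ T (A ∩ {f | (GoodRun p (cur f) z ∧ nextZero p (cur f) z = n) ∧ DQPrime p (cur f n) n})
        ≤ (2 / ((p : ℝ) - 1) + ε) *
          Pr μ T (A ∩ {f | GoodRun p (cur f) z ∧ nextZero p (cur f) z = n}) :=
  step_prime_of hp h (prob_q hp h5 hε)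

theorem step_comp {p : ℕ} (hp : p.Prime) (h5 : 5 ≤ p) (h : Res μ T) {ε : ℝ} (hε : 0 < ε) :
    ∃ z₂ : ℕ, ∀ z ≥ z₂, ∀ (n R : ℕ) (A : Set (ℕ × ℕ × ℕ → ℕ)),
      Dep (bx (range ((lev p z + 3) / 4)) R) A →
      Pr μ T (A ∩ {f | (GoodRun p (cur f) z ∧ nextZero p (cur f) z = n) ∧ ¬ DQPrime p (cur f n) n})
        ≤ (1 - 2 / ((p : ℝ) - 1) + ε) *
          Pr μ T (A ∩ {f | GoodRun p (cur f) z ∧ nextZero p (cur f) z = n}) :=
  step_comp_of hp h (prob_q hp h5 hε)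

/-- D9: the number of the zeros tends to infinity. -/
theorem zeros_tendsto {p : ℕ} (hp : p.Prime) (T : ℕ → ℕ → ℕ → ℕ) :
    Tendsto (fun X : ℕ => (#{n ∈ Icc 1 X | dseq p T n = 0} : ℝ)) atTop atTop :=
  Pool.Agent.L5helper12.GPD9.zeros_tendsto hp T

open Classical in
/-- D8: from `orb_bound`, `orb_meas`, `all_good` and `Pool.Agent.L5helper2.GR.chern`. -/
theorem ae_density {p : ℕ} (hp : p.Prime) (h : Res μ T) {P : ℕ → Set (ℕ × ℕ × ℕ → ℕ)}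
    (hP : ∀ n, ∃ R, Dep (bx {n} R) (P n)) {q' : ℝ} (hq : 0 ≤ q') (hq1 : q' ≤ 1) {z₂ : ℕ}
    (hstep : ∀ z ≥ z₂, ∀ (n R : ℕ) (A : Set (ℕ × ℕ × ℕ → ℕ)),
      Dep (bx (range ((lev p z + 3) / 4)) R) A →
      Pr μ T (A ∩ {f | (GoodRun p (cur f) z ∧ nextZero p (cur f) z = n) ∧ f ∈ P n})
        ≤ q' * Pr μ T (A ∩ {f | GoodRun p (cur f) z ∧ nextZero p (cur f) z = n}))
    {α : ℝ} (hα : q' < α) :
    ∀ᵐ ω ∂μ, ∀ᶠ X : ℕ in atTop,
      (#{n ∈ Icc 1 X | dseq p (res T ω) n = 0 ∧ (fun i => T i ω) ∈ P n} : ℝ)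
        ≤ α * #{n ∈ Icc 1 X | dseq p (res T ω) n = 0} :=
  ae_density_of hp h hq hq1 hstep
    (fun {z₂} hz hs hl {m} hm S => orb_bound hp h hP hq hz hs hl hm S)
    (fun {m} hm k => orb_meas hp h hP hm k) (fun T => zeros_tendsto hp T) hα

open Classical in
/-- D10: from `ae_density` for `DQPrime` and its negation (`step_prime`, `step_comp`), `all_good`. -/
theorem proportion {p : ℕ} (hp : p.Prime) (h5 : 5 ≤ p) (h : Res μ T) :
    ∀ᵐ ω ∂μ, Tendsto (fun X : ℕ =>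
      (#{n ∈ Icc 1 X | dseq p (res T ω) n = 0 ∧ DNPrime (res T ω n) n ∧ DQPrime p (res T ω n) n} : ℝ)
        / #{n ∈ Icc 1 X | dseq p (res T ω) n = 0}) atTop (𝓝 (2 / ((p : ℝ) - 1))) :=
  proportion_of hp h5 h
    (fun {P} hP {q_} hq hq1 {z} hs {a} ha => ae_density hp h hP hq hq1 hs ha)
    (fun {e} he => step_prime hp h5 h he) (fun {e} he => step_comp hp h5 h he)
    (fun T => zeros_tendsto hp T)

end Pool.Agent.L5helper32.GP
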