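import Pool.Agent.L5helper32.GP.Recover
import Pool.Agent.L5helper32.GP.Five

/-!
# The proportion of the prime zeros: definitions
-/

set_option autoImplicit false

open Finset MeasureTheory ProbabilityTheory

namespace Pool.Agent.L5helper32.GP

open Pool.Agent.L5helper32.GR (Root w pr sg Dep lev q)

/-- The first `k` descents from the zero `z` on are good, and for the `j < k` in `S` the next zero
after the `j`-th descent has the property `P`. -/
def CK (p : ℕ) (P : ℕ → Set (ℕ × ℕ × ℕ → ℕ)) (f : ℕ × ℕ × ℕ → ℕ) : ℕ → (ℕ → Prop) → ℕ → Prop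
  | 0, _, _ => True
  | k + 1, S, z => GoodRun p (cur f) z ∧ (S 0 → f ∈ P (nextZero p (cur f) z)) ∧
      CK p P f k (fun j => S (j + 1)) (nextZero p (cur f) z)

/-- The zeros after `m`. -/
noncomputable def orb (p : ℕ) (T : ℕ → ℕ → ℕ → ℕ) (m : ℕ) : ℕ → ℕ
  | 0 => sInf {z | m < z ∧ dseq p T z = 0}
  | k + 1 => nextZero p T (orb p T m k)

end Pool.Agent.L5helper32.GP
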